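import Mathlib
import Pool.Agent.H96.TLCOdd

/-!
# The largest possible constant in the t-adic Littlewood conjecture over odd non-prime fields

`K_q = F_q((1/t))` is `LaurentSeries F`, whose variable stands for `1/t`.
Let `q` be odd and not a prime. Then there is a series `Θ` with `|N| |N|_t |⟨N Θ⟩| ≥ q ^ (-1)` for all
nonzero polynomials `N`, and `q ^ (-1)` is the largest constant for which this is possible.

The series: let `β` be a non-square of `F_p`, let `b` be an element of `F_q` outside of `F_p`, and let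
`a_0 = 0, a_1 = 1, a_(n+2) = β a_n + [n even] a_(n/2)` (the sequence of the hand-in `OddFields`). Then
`Θ = ∑_{n ≥ 0} (b + a_0 + ... + a_(n-1)) t ^ (-n)`.
-/

set_option autoImplicit false

open Polynomial

namespace Pool.Agent.Results.MP_59ccbf_nt.BestConstant

/-- The element `t` of `K_q = F((1/t))`: the variable of `LaurentSeries F` stands for `1/t`. -/
noncomputable def tK (F : Type*) [Field F] : LaurentSeries F := HahnSeries.single (-1 : ℤ) 1

/-- A polynomial `N(t)` as an element of `K_q`: its value at `t`, constants being constant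
series. -/
noncomputable def toK {F : Type*} [Field F] (N : F[X]) : LaurentSeries F :=
  eval₂ (HahnSeries.C : F →+* LaurentSeries F) (tK F) N

/-- The absolute value of `K_q`: `|Θ| = q ^ d` where `d` is the degree of `Θ` in `t`
(`d` is minus the order in `1/t`), and `|0| = 0`. -/
noncomputable def absK {F : Type*} [Field F] [Fintype F] (Θ : LaurentSeries F) : ℝ :=
  open Classical in if Θ = 0 then 0 else (Fintype.card F : ℝ) ^ (-Θ.order)

/-- The fractional part: the sum of the terms of `Θ` with negative powers of `t`, that is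
positive powers of `1/t`. -/
noncomputable def fracK {F : Type*} [Field F] (Θ : LaurentSeries F) : LaurentSeries F where
  coeff n := if 0 < n then Θ.coeff n else 0
  isPWO_support' := Θ.isPWO_support.mono (by
    intro n hn
    simp only [Function.mem_support] at hn ⊢
    intro h
    apply hn
    simp [h])

/-- `|N|_t = q ^ (-v)` where `v` is the largest integer with `t ^ v ∣ N` (for `N ≠ 0`). -/
noncomputable def absT {F : Type*} [Field F] [Fintype F] (N : F[X]) : ℝ :=
  (Fintype.card F : ℝ) ^ (-(multiplicity (X : F[X]) N : ℤ))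

section core

open Pool.Agent.H96.TLC

/-- The sequence `b + a_0 + ... + a_(n-1)`. -/
def seqG {K F : Type*} [Field K] [Field F] [Algebra K F] (a : ℕ → K) (b : F) (n : ℕ) : F :=
  b + algebraMap K F (∑ i ∈ Finset.range n, a i)

/-- If `R` has degree `d` and `P` smaller degree, and both kill `a` at the positions `k + 1, …, k + d`,
then `P = 0`. -/
theorem unique {K : Type*} [Field K] (a : ℕ → K)
    (ha : ∀ P : K[X], P ≠ 0 → ∀ k : ℕ, ∃ j, 1 ≤ j ∧ j ≤ P.natDegree + 2 ∧ act P a (k + j) ≠ 0)
    (d k : ℕ) (R P : K[X]) (hRd : R.natDegree ≤ d) (hR0 : R.coeff d ≠ 0)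
    (hR : ∀ j, 1 ≤ j → j ≤ d → act R a (k + j) = 0)
    (hPd : P.natDegree ≤ d) (hP0 : P.coeff d = 0)
    (hP : ∀ j, 1 ≤ j → j ≤ d → act P a (k + j) = 0) : P = 0 := by
  by_contra hne
  have hlt : P.natDegree < d := by
    rcases Nat.lt_or_ge P.natDegree d with h | h
    · exact h
    · exfalso
      have h1 : P.natDegree = d := le_antisymm hPd h
      apply hne
      rw [← leadingCoeff_eq_zero, leadingCoeff, h1]
      exact hP0
  obtain ⟨j, hj1, hj2, hj3⟩ := ha P hne k
  have hj : j = d + 1 := by
    by_contra hcon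
    exact hj3 (hP j hj1 (by omega))
  subst hj
  have e1 : act (P * R) a (k + 1) = 0 := by
    rw [act_mul, act_eq_zero_of]
    intro i hi
    have := hR (i + 1) (by omega) (by omega)
    rwa [show k + (i + 1) = i + (k + 1) by omega] at this
  have e2 : act (P * R) a (k + 1) = R.coeff d * act P a (k + (d + 1)) := by
    rw [mul_comm P R, act_mul, act_apply' R _ _ (d + 1) (by omega), Finset.sum_range_succ,
      show d + (k + 1) = k + (d + 1) by omega, Finset.sum_eq_zero, zero_add]
    intro i hi
    have hi' := Finset.mem_range.1 hi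
    have := hP (i + 1) (by omega) (by omega)
    rw [show k + (i + 1) = i + (k + 1) by omega] at this
    rw [this, mul_zero]
  rw [e1] at e2
  exact hj3 ((mul_eq_zero.1 e2.symm).resolve_left hR0)

/-- The number wall of `seqG` has no zeros. -/
theorem core {K F : Type*} [Field K] [Field F] [Algebra K F] (a : ℕ → K)
    (ha : ∀ P : K[X], P ≠ 0 → ∀ k : ℕ, ∃ j, 1 ≤ j ∧ j ≤ P.natDegree + 2 ∧ act P a (k + j) ≠ 0)
    (b : F) (hb : ∀ c : K, algebraMap K F c ≠ b) (Q : F[X]) (hQ : Q ≠ 0) (k : ℕ) :
    ∃ j, 1 ≤ j ∧ j ≤ Q.natDegree + 1 ∧ act Q (seqG a b) (k + j) ≠ 0 := by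
  classical
  by_contra hcon
  push Not at hcon
  set d := Q.natDegree with hd
  have hlead : Q.coeff d ≠ 0 := leadingCoeff_ne_zero.2 hQ
  -- differences
  have hdiff : ∀ n, act Q (seqG a b) (n + 1) - act Q (seqG a b) n =
      ∑ i ∈ Finset.range (d + 1), Q.coeff i * algebraMap K F (a (i + n)) := by
    intro n
    rw [act_apply, act_apply, ← hd, ← Finset.sum_sub_distrib]
    refine Finset.sum_congr rfl fun i _ => ?_
    rw [← mul_sub, show i + (n + 1) = (i + n) + 1 by ring]
    congr 1
    unfold seqG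
    rw [Finset.sum_range_succ, map_add]
    ring
  have hzero : ∀ j, 1 ≤ j → j ≤ d →
      ∑ i ∈ Finset.range (d + 1), Q.coeff i * algebraMap K F (a (i + (k + j))) = 0 := by
    intro j h1 h2
    rw [← hdiff, show k + j + 1 = k + (j + 1) by ring, hcon (j + 1) (by omega) (by omega),
      hcon j h1 (by omega), sub_zero]
  -- the polynomials over `K`
  set T : Module.Dual K F → K[X] := fun ψ =>
    ∑ i ∈ Finset.range (d + 1), C (ψ (Q.coeff i)) * X ^ i with hT
  have cT : ∀ ψ n, n < d + 1 → (T ψ).coeff n = ψ (Q.coeff n) := by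
    intro ψ n hn
    rw [hT]
    simp only
    rw [finsetSum_coeff, Finset.sum_eq_single_of_mem n (Finset.mem_range.2 hn)]
    · simp
    · intro i _ hi
      rw [coeff_C_mul, coeff_X_pow, if_neg (Ne.symm hi), mul_zero]
  have dT : ∀ ψ, (T ψ).natDegree ≤ d := by
    intro ψ
    rw [natDegree_le_iff_coeff_eq_zero]
    intro n hn
    rw [hT]
    simp only
    rw [finsetSum_coeff]
    refine Finset.sum_eq_zero fun i hi => ?_
    have := Finset.mem_range.1 hi
    rw [coeff_C_mul, coeff_X_pow, if_neg (by omega), mul_zero]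
  have aT : ∀ ψ (s : ℕ → K) n, act (T ψ) s n =
      ψ (∑ i ∈ Finset.range (d + 1), Q.coeff i * algebraMap K F (s (i + n))) := by
    intro ψ s n
    rw [act_apply' _ _ _ (d + 1) (by have := dT ψ; omega), map_sum]
    refine Finset.sum_congr rfl fun i hi => ?_
    rw [cT ψ i (Finset.mem_range.1 hi)]
    have e : Q.coeff i * algebraMap K F (s (i + n)) = s (i + n) • Q.coeff i := by
      rw [Algebra.smul_def]; ring
    rw [e, map_smul, smul_eq_mul, mul_comm]
  have zT : ∀ ψ j, 1 ≤ j → j ≤ d → act (T ψ) a (k + j) = 0 := by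
    intro ψ j h1 h2
    rw [aT, hzero j h1 h2, map_zero]
  -- a functional which does not kill the leading coefficient
  obtain ⟨ψ₀, hψ₀⟩ : ∃ ψ : Module.Dual K F, ψ (Q.coeff d) ≠ 0 := by
    by_contra hall
    push Not at hall
    exact hlead ((Module.forall_dual_apply_eq_zero_iff K _).1 hall)
  set R := T ψ₀ with hR
  have hRc : R.coeff d ≠ 0 := by
    rw [hR, cT _ _ (Nat.lt_succ_self d)]
    exact hψ₀
  have hRd : R.natDegree = d := le_antisymm (dT _) (le_natDegree_of_ne_zero hRc)
  have hR0 : R ≠ 0 := by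
    intro h
    rw [h, coeff_zero] at hRc
    exact hRc rfl
  -- `Q` is proportional to `R`
  have hprop : ∀ i, i < d + 1 →
      ψ₀ (Q.coeff d) • Q.coeff i = ψ₀ (Q.coeff i) • Q.coeff d := by
    intro i hi
    rw [← sub_eq_zero]
    refine (Module.forall_dual_apply_eq_zero_iff K _).1 fun ψ => ?_
    have hP : T (ψ₀ (Q.coeff d) • ψ - ψ (Q.coeff d) • ψ₀) = 0 := by
      refine unique a ha d k R _ hRd.le hRc (zT _) (dT _) ?_ (zT _)
      rw [cT _ _ (Nat.lt_succ_self d)]
      simp only [LinearMap.sub_apply, LinearMap.smul_apply, smul_eq_mul]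
      ring
    have h1 := cT (ψ₀ (Q.coeff d) • ψ - ψ (Q.coeff d) • ψ₀) i hi
    rw [hP, coeff_zero] at h1
    simp only [LinearMap.sub_apply, LinearMap.smul_apply, smul_eq_mul] at h1
    rw [map_sub, map_smul, map_smul, smul_eq_mul, smul_eq_mul, h1]
    ring
  -- the action of `Q` on `seqG`
  set e : ℕ → K := fun n => ∑ i ∈ Finset.range n, a i with he
  have hQg : ∀ n, algebraMap K F (ψ₀ (Q.coeff d)) * act Q (seqG a b) n =
      Q.coeff d * (b * algebraMap K F (R.eval 1) + algebraMap K F (act R e n)) := by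
    intro n
    rw [act_apply, ← hd, Finset.mul_sum, eval_eq_sum_range, hRd,
      act_apply' R e n (d + 1) (by omega), map_sum, map_sum, Finset.mul_sum,
      ← Finset.sum_add_distrib, Finset.mul_sum]
    refine Finset.sum_congr rfl fun i hi => ?_
    have h1 := hprop i (Finset.mem_range.1 hi)
    rw [Algebra.smul_def, Algebra.smul_def, ← cT ψ₀ i (Finset.mem_range.1 hi), ← hR] at h1
    unfold seqG
    rw [one_pow, mul_one, map_mul, he]
    simp only
    linear_combination (b + algebraMap K F (∑ i ∈ Finset.range (i + n), a i)) * h1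
  have hval : ∀ j, 1 ≤ j → j ≤ d + 1 →
      b * algebraMap K F (R.eval 1) + algebraMap K F (act R e (k + j)) = 0 := by
    intro j h1 h2
    have h3 := hQg (k + j)
    rw [hcon j h1 h2, mul_zero] at h3
    exact (mul_eq_zero.1 h3.symm).resolve_left hlead
  have hR1 : R.eval 1 = 0 := by
    by_contra hne
    apply hb (-(act R e (k + 1)) / R.eval 1)
    have h1 := hval 1 le_rfl (by omega)
    have h2 : algebraMap K F (R.eval 1) ≠ 0 := by
      rw [Ne, map_eq_zero]
      exact hne
    rw [map_div₀, map_neg, div_eq_iff h2]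
    linear_combination -h1
  have hRe : ∀ j, 1 ≤ j → j ≤ d + 1 → act R e (k + j) = 0 := by
    intro j h1 h2
    have h3 := hval j h1 h2
    rw [hR1, map_zero, mul_zero, zero_add, map_eq_zero] at h3
    exact h3
  -- divide by `X - 1`
  obtain ⟨S, hS⟩ := dvd_iff_isRoot.2 (show IsRoot R 1 from hR1)
  have hS0 : S ≠ 0 := by
    rintro rfl
    exact hR0 (by rw [hS, mul_zero])
  have hSd : d = S.natDegree + 1 := by
    rw [← hRd, hS, natDegree_mul (X_sub_C_ne_zero 1) hS0, natDegree_X_sub_C, add_comm]
  have hXe : act (X - C 1 : K[X]) e = a := by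
    funext n
    rw [act_apply' _ _ _ 2 (by rw [natDegree_X_sub_C]; norm_num), Finset.sum_range_succ,
      Finset.sum_range_succ, Finset.sum_range_zero]
    have c0 : (X - C 1 : K[X]).coeff 0 = -1 := by simp
    have c1 : (X - C 1 : K[X]).coeff 1 = 1 := by simp [coeff_one]
    rw [c0, c1, he]
    simp only
    rw [show 1 + n = n + 1 by ring, show 0 + n = n by ring, Finset.sum_range_succ]
    ring
  obtain ⟨j, hj1, hj2, hj3⟩ := ha S hS0 k
  apply hj3
  have h1 := hRe j hj1 (by omega)
  rwa [hS, mul_comm, act_mul, hXe] at h1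

end core

section aux

open Pool.Agent.H96.TLC

variable {F : Type*} [Field F]

/-- The Laurent series `∑_{i ≥ 0} a_i t ^ (-i)`. -/
noncomputable def ser (a : ℕ → F) : LaurentSeries F :=
  HahnSeries.ofPowerSeries ℤ F (PowerSeries.mk a)

lemma tK_pow (i : ℕ) : (tK F) ^ i = HahnSeries.single (-(i : ℤ)) 1 := by
  unfold tK
  rw [HahnSeries.single_pow]
  simp

lemma toK_eq (N : F[X]) :
    toK N = ∑ i ∈ Finset.range (N.natDegree + 1), HahnSeries.single (-(i : ℤ)) (N.coeff i) := by
  unfold toK
  rw [eval₂_eq_sum_range]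
  refine Finset.sum_congr rfl fun i _ => ?_
  rw [tK_pow, HahnSeries.C_apply, HahnSeries.single_mul_single, zero_add, mul_one]

lemma toK_coeff (N : F[X]) (m : ℤ) :
    (toK N).coeff m = if m ≤ 0 then N.coeff (-m).toNat else 0 := by
  rw [toK_eq, HahnSeries.coeff_sum]
  by_cases hm : m ≤ 0
  · rw [if_pos hm]
    by_cases hlt : (-m).toNat < N.natDegree + 1
    · rw [Finset.sum_eq_single_of_mem (-m).toNat (Finset.mem_range.2 hlt)]
      · rw [show (-(((-m).toNat : ℕ) : ℤ)) = m by omega]
        simp
      · intro b _ hb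
        rw [HahnSeries.coeff_single_of_ne]
        omega
    · rw [coeff_eq_zero_of_natDegree_lt (by omega)]
      refine Finset.sum_eq_zero fun i hi => ?_
      rw [HahnSeries.coeff_single_of_ne]
      simp at hi
      omega
  · rw [if_neg hm]
    refine Finset.sum_eq_zero fun i _ => ?_
    rw [HahnSeries.coeff_single_of_ne]
    omega

lemma toK_ne_zero {N : F[X]} (hN : N ≠ 0) : toK N ≠ 0 := by
  intro h
  have : (toK N).coeff (-(N.natDegree : ℤ)) = 0 := by rw [h]; simp
  rw [toK_coeff, if_pos (by omega)] at this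
  simp at this
  exact hN this

lemma toK_order {N : F[X]} (hN : N ≠ 0) : (toK N).order = -(N.natDegree : ℤ) := by
  apply le_antisymm
  · apply HahnSeries.order_le_of_coeff_ne_zero
    rw [toK_coeff, if_pos (by omega)]
    simpa using hN
  · have h : (toK N).coeff (toK N).order ≠ 0 := by
      intro h
      exact toK_ne_zero hN (HahnSeries.coeff_order_eq_zero.mp h)
    rw [toK_coeff] at h
    by_contra hlt
    push Not at hlt
    apply h
    split_ifs
    · exact coeff_eq_zero_of_natDegree_lt (by omega)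
    · rfl

lemma ser_coeff_nat (a : ℕ → F) (n : ℕ) : (ser a).coeff (n : ℤ) = a n := by
  unfold ser
  rw [HahnSeries.ofPowerSeries_apply_coeff, PowerSeries.coeff_mk]

lemma mul_coeff (N : F[X]) (a : ℕ → F) (j : ℕ) :
    (toK N * ser a).coeff (j : ℤ) = act N a j := by
  rw [toK_eq, Finset.sum_mul, HahnSeries.coeff_sum, act_apply]
  refine Finset.sum_congr rfl fun i _ => ?_
  rw [HahnSeries.coeff_single_mul]
  rw [show ((j : ℤ) - -(i : ℤ)) = ((i + j : ℕ) : ℤ) by push_cast; ring, ser_coeff_nat]

lemma fracK_coeff_nat (N : F[X]) (a : ℕ → F) {j : ℕ} (hj : 1 ≤ j) :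
    (fracK (toK N * ser a)).coeff (j : ℤ) = act N a j := by
  show (if (0 : ℤ) < (j : ℤ) then (toK N * ser a).coeff (j : ℤ) else 0) = _
  rw [if_pos (by omega), mul_coeff]

/-- Lower bound for all `N`. -/
lemma lower [Fintype F] (a : ℕ → F) (g : ℕ)
    (h : ∀ (Q : F[X]), Q ≠ 0 → ∀ k : ℕ, ∃ j, 1 ≤ j ∧ j ≤ Q.natDegree + g ∧ act Q a (k + j) ≠ 0)
    (N : F[X]) (hN : N ≠ 0) :
    (Fintype.card F : ℝ) ^ (-(g : ℤ)) ≤ absK (toK N) * absT N * absK (fracK (toK N * ser a)) := by
  have hq : (1 : ℝ) < Fintype.card F := by exact_mod_cast Fintype.one_lt_card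
  have hq0 : (0 : ℝ) < Fintype.card F := by linarith
  set v := multiplicity (X : F[X]) N with hv
  obtain ⟨Q, hQ⟩ : (X : F[X]) ^ v ∣ N := pow_multiplicity_dvd X N
  have hQ0 : Q ≠ 0 := by rintro rfl; exact hN (by rw [hQ, mul_zero])
  have hdeg : N.natDegree = v + Q.natDegree := by
    rw [hQ, natDegree_mul (pow_ne_zero _ X_ne_zero) hQ0, natDegree_X_pow]
  obtain ⟨j, hj1, hj2, hj3⟩ := h Q hQ0 v
  have hshift : act N a j ≠ 0 := by
    rw [hQ, act_mul]
    have : ∀ (b : ℕ → F), act (X ^ v : F[X]) b j = b (v + j) := by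
      intro b
      unfold act
      rw [map_pow, aeval_X, shiftOp_pow_apply]
    rw [this]; exact hj3
  have hcj : (fracK (toK N * ser a)).coeff (j : ℤ) ≠ 0 := by
    rw [fracK_coeff_nat N a hj1]
    exact hshift
  have hne : fracK (toK N * ser a) ≠ 0 := by
    intro h; rw [h] at hcj; exact hcj rfl
  have hord : (fracK (toK N * ser a)).order ≤ j := HahnSeries.order_le_of_coeff_ne_zero hcj
  unfold absK absT
  rw [if_neg (toK_ne_zero hN), if_neg hne, toK_order hN, ← zpow_add₀ hq0.ne',
    ← zpow_add₀ hq0.ne']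
  apply zpow_le_zpow_right₀ hq.le
  rw [← hv]
  omega

/-- The value at `N = 1` is at most `q ^ (-1)`. -/
lemma upper [Fintype F] (Θ : LaurentSeries F) :
    absK (toK (1 : F[X])) * absT (1 : F[X]) * absK (fracK (toK (1 : F[X]) * Θ)) ≤
      (Fintype.card F : ℝ) ^ (-1 : ℤ) := by
  have hq : (1 : ℝ) < Fintype.card F := by exact_mod_cast Fintype.one_lt_card
  have hq0 : (0 : ℝ) < Fintype.card F := by linarith
  have h1 : absK (toK (1 : F[X])) = 1 := by
    unfold absK
    rw [if_neg (toK_ne_zero one_ne_zero), toK_order one_ne_zero]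
    simp
  have h2 : absT (1 : F[X]) = 1 := by
    unfold absT
    have : multiplicity (X : F[X]) 1 = 0 := by
      apply multiplicity_eq_zero.2
      intro h
      exact not_isUnit_X (isUnit_of_dvd_one h)
    rw [this]
    simp
  rw [h1, h2, one_mul, one_mul]
  unfold absK
  split_ifs with h0
  · positivity
  · apply zpow_le_zpow_right₀ hq.le
    have hz : (fracK (toK (1 : F[X]) * Θ)).coeff (fracK (toK (1 : F[X]) * Θ)).order ≠ 0 := fun h =>
      h0 (HahnSeries.coeff_order_eq_zero.mp h)
    by_contra hlt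
    push Not at hlt
    apply hz
    generalize (fracK (toK (1 : F[X]) * Θ)).order = m at hlt
    show (if (0 : ℤ) < m then (toK (1 : F[X]) * Θ).coeff m else 0) = 0
    rw [if_neg (by omega)]

end aux

/-- Let `F` be a finite field whose order `q` is odd and not a prime. The largest real `c` for which
there is `Θ` in `K_q = F_q((1/t))` with `|N| |N|_t |⟨N Θ⟩| ≥ c` for all nonzero `N` is `q ^ (-1)`. -/
theorem result (F : Type*) [Field F] [Fintype F] (hodd : Odd (Fintype.card F))
    (hprime : ¬ (Fintype.card F).Prime) :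
    IsGreatest {c : ℝ | ∃ Θ : LaurentSeries F, ∀ N : F[X], N ≠ 0 →
        c ≤ absK (toK N) * absT N * absK (fracK (toK N * Θ))}
      ((Fintype.card F : ℝ) ^ (-1 : ℤ)) := by
  refine ⟨?_, ?_⟩
  · classical
    have hchar : ringChar F ≠ 2 := by
      intro h
      have := (FiniteField.even_card_iff_char_two (F := F)).mp h
      rw [Nat.odd_iff] at hodd
      omega
    set p := ringChar F with hp
    have hF : CharP F p := ringChar.charP F
    have hpp : p.Prime := CharP.char_is_prime F p
    have _ : Fact p.Prime := ⟨hpp⟩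
    let _ : Algebra (ZMod p) F := ZMod.algebra F p
    have hcharK : ringChar (ZMod p) ≠ 2 := by
      rw [ZMod.ringChar_zmod_n]
      exact hchar
    obtain ⟨β, hβ⟩ := FiniteField.exists_nonsquare hcharK
    have hβ' : ∀ c : ZMod p, c ^ 2 ≠ β := fun c hc => hβ ⟨c, by rw [← hc, sq]⟩
    have h2 : (2 : ZMod p) ≠ 0 := Ring.two_ne_zero hcharK
    obtain ⟨b, hb⟩ : ∃ b : F, ∀ c : ZMod p, algebraMap (ZMod p) F c ≠ b := by
      by_contra hall
      push Not at hall
      apply hprime
      have hbij : Function.Bijective (algebraMap (ZMod p) F) :=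
        ⟨(algebraMap (ZMod p) F).injective, hall⟩
      rw [← Fintype.card_of_bijective hbij, ZMod.card]
      exact hpp
    exact ⟨ser (seqG (Pool.Agent.H96.TLC.seqA β) b), fun N hN => lower _ 1 (fun Q hQ k =>
      core _ (fun P hP m => Pool.Agent.H96.TLC.main β hβ' h2 P.natDegree P rfl hP m)
        b hb Q hQ k) N hN⟩
  · rintro c ⟨Θ, hΘ⟩
    exact (hΘ 1 one_ne_zero).trans (upper Θ)

end Pool.Agent.Results.MP_59ccbf_nt.BestConstant
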