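import Mathlib
import Pool.Agent.H96.TLCLevel

/-!
# Level-`m` paperfolding series and the t-adic Littlewood conjecture

`K_q = F_q((1/t))` is `LaurentSeries F`, whose variable stands for `1/t`.
The level-`m` paperfolding sequence `l_i`, `i ≥ 1`, takes values in `{0, ..., 2 ^ m - 1}`: `l_(2i) = l_i`, and
`l_i = (r - 1) / 2` for odd `i`, `r` being the remainder of `i` modulo `2 ^ (m + 1)` (`lev m i` in Lean). The series
considered are `Θ = ∑ (c' + c l_i) t ^ (-i)`, `c ≠ 0`.
-/

set_option autoImplicit false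

open Polynomial

namespace Pool.Agent.Results.MP_59ccbf_nt.LevelPaperfolding

open Pool.Agent.H96.TLC (lev)

/-- The element `t` of `K_q = F((1/t))`: the variable of `LaurentSeries F` stands for `1/t`. -/
noncomputable def tK (F : Type*) [Field F] : LaurentSeries F := HahnSeries.single (-1 : ℤ) 1

/-- A polynomial `N(t)` as an element of `K_q`: its value at `t`, constants being constant
series. -/
noncomputable def toK {F : Type*} [Field F] (N : F[X]) : LaurentSeries F :=
  eval₂ (HahnSeries.C : F →+* LaurentSeries F) (tK F) N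

/-- The absolute value of `K_q`: `|Θ| = q ^ d` where `d` is the degree of `Θ` in `t`
(`d` is minus the order in `1/t`), and `|0| = 0`. -/
noncomputable def absK {F : Type*} [Field F] [Fintype F] (Θ : LaurentSeries F) : ℝ :=
  open Classical in if Θ = 0 then 0 else (Fintype.card F : ℝ) ^ (-Θ.order)

/-- The fractional part: the sum of the terms of `Θ` with negative powers of `t`, that is
positive powers of `1/t`. -/
noncomputable def fracK {F : Type*} [Field F] (Θ : LaurentSeries F) : LaurentSeries F where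
  coeff n := if 0 < n then Θ.coeff n else 0
  isPWO_support' := Θ.isPWO_support.mono (by
    intro n hn
    simp only [Function.mem_support] at hn ⊢
    intro h
    apply hn
    simp [h])

/-- `|N|_t = q ^ (-v)` where `v` is the largest integer with `t ^ v ∣ N` (for `N ≠ 0`). -/
noncomputable def absT {F : Type*} [Field F] [Fintype F] (N : F[X]) : ℝ :=
  (Fintype.card F : ℝ) ^ (-(multiplicity (X : F[X]) N : ℤ))

/-- The Laurent series `∑_{i ≥ 0} a_i t ^ (-i)`. -/
noncomputable def ser {F : Type*} [Field F] (a : ℕ → F) : LaurentSeries F :=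
  HahnSeries.ofPowerSeries ℤ F (PowerSeries.mk a)

/-- `|N| |N|_t |⟨N Θ⟩|` for the series `Θ = ∑_{i ≥ 0} (c' + c l_i) t ^ (-i)`, where `l_i` is the level-`m` paperfolding
sequence (`l_0 = 0`). -/
noncomputable def val {F : Type*} [Field F] [Fintype F] (m : ℕ) (c c' : F) (N : F[X]) : ℝ :=
  absK (toK N) * absT N * absK (fracK (toK N * ser fun i => c' + c * (lev m i : F)))

section aux

open Pool.Agent.H96.TLC

variable {F : Type*} [Field F]

lemma tK_pow (i : ℕ) : (tK F) ^ i = HahnSeries.single (-(i : ℤ)) 1 := by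
  unfold tK
  rw [HahnSeries.single_pow]
  simp

lemma toK_eq (N : F[X]) :
    toK N = ∑ i ∈ Finset.range (N.natDegree + 1), HahnSeries.single (-(i : ℤ)) (N.coeff i) := by
  unfold toK
  rw [eval₂_eq_sum_range]
  refine Finset.sum_congr rfl fun i _ => ?_
  rw [tK_pow, HahnSeries.C_apply, HahnSeries.single_mul_single, zero_add, mul_one]

lemma toK_coeff (N : F[X]) (m : ℤ) :
    (toK N).coeff m = if m ≤ 0 then N.coeff (-m).toNat else 0 := by
  rw [toK_eq, HahnSeries.coeff_sum]
  by_cases hm : m ≤ 0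
  · rw [if_pos hm]
    by_cases hlt : (-m).toNat < N.natDegree + 1
    · rw [Finset.sum_eq_single_of_mem (-m).toNat (Finset.mem_range.2 hlt)]
      · rw [show (-(((-m).toNat : ℕ) : ℤ)) = m by omega]
        simp
      · intro b _ hb
        rw [HahnSeries.coeff_single_of_ne]
        omega
    · rw [coeff_eq_zero_of_natDegree_lt (by omega)]
      refine Finset.sum_eq_zero fun i hi => ?_
      rw [HahnSeries.coeff_single_of_ne]
      simp at hi
      omega
  · rw [if_neg hm]
    refine Finset.sum_eq_zero fun i _ => ?_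
    rw [HahnSeries.coeff_single_of_ne]
    omega

lemma toK_ne_zero {N : F[X]} (hN : N ≠ 0) : toK N ≠ 0 := by
  intro h
  have : (toK N).coeff (-(N.natDegree : ℤ)) = 0 := by rw [h]; simp
  rw [toK_coeff, if_pos (by omega)] at this
  simp at this
  exact hN this

lemma toK_order {N : F[X]} (hN : N ≠ 0) : (toK N).order = -(N.natDegree : ℤ) := by
  apply le_antisymm
  · apply HahnSeries.order_le_of_coeff_ne_zero
    rw [toK_coeff, if_pos (by omega)]
    simpa using hN
  · have h : (toK N).coeff (toK N).order ≠ 0 := by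
      intro h
      exact toK_ne_zero hN (HahnSeries.coeff_order_eq_zero.mp h)
    rw [toK_coeff] at h
    by_contra hlt
    push Not at hlt
    apply h
    split_ifs
    · exact coeff_eq_zero_of_natDegree_lt (by omega)
    · rfl

lemma ser_coeff_nat (a : ℕ → F) (n : ℕ) : (ser a).coeff (n : ℤ) = a n := by
  unfold ser
  rw [HahnSeries.ofPowerSeries_apply_coeff, PowerSeries.coeff_mk]

lemma mul_coeff (N : F[X]) (a : ℕ → F) (j : ℕ) :
    (toK N * ser a).coeff (j : ℤ) = act N a j := by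
  rw [toK_eq, Finset.sum_mul, HahnSeries.coeff_sum, act_apply]
  refine Finset.sum_congr rfl fun i _ => ?_
  rw [HahnSeries.coeff_single_mul]
  rw [show ((j : ℤ) - -(i : ℤ)) = ((i + j : ℕ) : ℤ) by push_cast; ring, ser_coeff_nat]

lemma fracK_coeff_nat (N : F[X]) (a : ℕ → F) {j : ℕ} (hj : 1 ≤ j) :
    (fracK (toK N * ser a)).coeff (j : ℤ) = act N a j := by
  show (if (0 : ℤ) < (j : ℤ) then (toK N * ser a).coeff (j : ℤ) else 0) = _
  rw [if_pos (by omega), mul_coeff]

/-- Lower bound for `N = t ^ v Q`, `v` maximal, if a coefficient does not vanish. -/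
lemma lower [Fintype F] (a : ℕ → F) (g : ℕ) (N Q : F[X]) (hN : N ≠ 0)
    (hQ : N = X ^ multiplicity (X : F[X]) N * Q)
    (h : ∃ j, 1 ≤ j ∧ j ≤ Q.natDegree + g ∧ act Q a (multiplicity (X : F[X]) N + j) ≠ 0) :
    (Fintype.card F : ℝ) ^ (-(g : ℤ)) ≤ absK (toK N) * absT N * absK (fracK (toK N * ser a)) := by
  have hq : (1 : ℝ) < Fintype.card F := by exact_mod_cast Fintype.one_lt_card
  have hq0 : (0 : ℝ) < Fintype.card F := by linarith
  set v := multiplicity (X : F[X]) N with hv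
  have hQ0 : Q ≠ 0 := by rintro rfl; exact hN (by rw [hQ, mul_zero])
  have hdeg : N.natDegree = v + Q.natDegree := by
    rw [hQ, natDegree_mul (pow_ne_zero _ X_ne_zero) hQ0, natDegree_X_pow]
  obtain ⟨j, hj1, hj2, hj3⟩ := h
  have hshift : act N a j ≠ 0 := by
    rw [hQ, act_mul, act_Xpow]
    exact hj3
  have hcj : (fracK (toK N * ser a)).coeff (j : ℤ) ≠ 0 := by
    rw [fracK_coeff_nat N a hj1]
    exact hshift
  have hne : fracK (toK N * ser a) ≠ 0 := by
    intro h; rw [h] at hcj; exact hcj rfl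
  have hord : (fracK (toK N * ser a)).order ≤ j := HahnSeries.order_le_of_coeff_ne_zero hcj
  unfold absK absT
  rw [if_neg (toK_ne_zero hN), if_neg hne, toK_order hN, ← zpow_add₀ hq0.ne',
    ← zpow_add₀ hq0.ne']
  apply zpow_le_zpow_right₀ hq.le
  rw [← hv]
  omega

/-- Upper bound for `N = t ^ v Q` if many coefficients vanish. -/
lemma upper [Fintype F] (a : ℕ → F) (v L : ℕ) (Q : F[X]) (hQ : Q ≠ 0)
    (h : ∀ j, 1 ≤ j → j ≤ L → act Q a (v + j) = 0) :
    absK (toK (X ^ v * Q)) * absT (X ^ v * Q) * absK (fracK (toK (X ^ v * Q) * ser a)) ≤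
      (Fintype.card F : ℝ) ^ ((Q.natDegree : ℤ) - L - 1) := by
  have hq : (1 : ℝ) < Fintype.card F := by exact_mod_cast Fintype.one_lt_card
  have hq0 : (0 : ℝ) < Fintype.card F := by linarith
  have hN : X ^ v * Q ≠ 0 := mul_ne_zero (pow_ne_zero _ X_ne_zero) hQ
  have hdeg : (X ^ v * Q).natDegree = v + Q.natDegree := by
    rw [natDegree_mul (pow_ne_zero _ X_ne_zero) hQ, natDegree_X_pow]
  have hmul : v ≤ multiplicity (X : F[X]) (X ^ v * Q) := by
    have hfin : FiniteMultiplicity (X : F[X]) (X ^ v * Q) :=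
      FiniteMultiplicity.of_prime_left prime_X hN
    exact hfin.le_multiplicity_of_pow_dvd (Dvd.intro _ rfl)
  by_cases hz : fracK (toK (X ^ v * Q) * ser a) = 0
  · rw [hz]
    have : absK (0 : LaurentSeries F) = 0 := by
      unfold absK
      rw [if_pos rfl]
    rw [this, mul_zero]
    positivity
  · have hord : ((L : ℤ) + 1) ≤ (fracK (toK (X ^ v * Q) * ser a)).order := by
      by_contra hlt
      push Not at hlt
      have hc : (fracK (toK (X ^ v * Q) * ser a)).coeff (fracK (toK (X ^ v * Q) * ser a)).order ≠ 0 :=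
        fun h => hz (HahnSeries.coeff_order_eq_zero.mp h)
      generalize (fracK (toK (X ^ v * Q) * ser a)).order = s at hc hlt
      apply hc
      by_cases hs : 0 < s
      · obtain ⟨i, rfl⟩ : ∃ i : ℕ, s = i := ⟨s.toNat, by omega⟩
        rw [fracK_coeff_nat _ a (by omega), act_mul, act_Xpow]
        exact h i (by omega) (by omega)
      · show (if (0 : ℤ) < s then (toK (X ^ v * Q) * ser a).coeff s else 0) = 0
        rw [if_neg hs]
    unfold absK absT
    rw [if_neg (toK_ne_zero hN), if_neg hz, toK_order hN, ← zpow_add₀ hq0.ne',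
      ← zpow_add₀ hq0.ne']
    apply zpow_le_zpow_right₀ hq.le
    omega

/-- Windows of an integer sequence do not grow when the prime field is extended. -/
lemma extend [Fintype F] (p : ℕ) [Fact p.Prime] [CharP F p] (a : ℕ → ℤ) (g : ℕ)
    (h : ∀ (Q : (ZMod p)[X]), Q ≠ 0 → ∀ k : ℕ,
      ∃ j, 1 ≤ j ∧ j ≤ Q.natDegree + g ∧ act Q (fun i => (a i : ZMod p)) (k + j) ≠ 0)
    (Q : F[X]) (hQ : Q ≠ 0) (k : ℕ) :
    ∃ j, 1 ≤ j ∧ j ≤ Q.natDegree + g ∧ act Q (fun i => (a i : F)) (k + j) ≠ 0 := by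
  classical
  let _ : Algebra (ZMod p) F := ZMod.algebra F p
  obtain ⟨φ, hφ⟩ : ∃ φ : Module.Dual (ZMod p) F, φ Q.leadingCoeff ≠ 0 := by
    by_contra hcon
    push Not at hcon
    exact hQ (leadingCoeff_eq_zero.1 ((Module.forall_dual_apply_eq_zero_iff (ZMod p) _).1 hcon))
  set R : (ZMod p)[X] := ∑ i ∈ Finset.range (Q.natDegree + 1), C (φ (Q.coeff i)) * X ^ i with hR
  have hc : ∀ n, n ≤ Q.natDegree → R.coeff n = φ (Q.coeff n) := by
    intro n hn
    rw [hR, finsetSum_coeff, Finset.sum_eq_single_of_mem n (Finset.mem_range.2 (by omega))]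
    · simp
    · intro i _ hi
      rw [coeff_C_mul, coeff_X_pow, if_neg (Ne.symm hi), mul_zero]
  have hR0 : R ≠ 0 := by
    intro h0
    apply hφ
    have := hc Q.natDegree le_rfl
    rw [h0, coeff_zero] at this
    exact this.symm
  have hle : R.natDegree ≤ Q.natDegree := by
    refine natDegree_sum_le_of_forall_le _ _ fun i hi => ?_
    refine (natDegree_C_mul_X_pow_le _ _).trans ?_
    have := Finset.mem_range.1 hi
    omega
  obtain ⟨j, hj1, hj2, hj3⟩ := h R hR0 k
  refine ⟨j, hj1, by omega, fun h0 => hj3 ?_⟩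
  rw [act_apply' R _ _ (Q.natDegree + 1) (by omega)]
  rw [act_apply] at h0
  have h1 := congrArg φ h0
  rw [map_zero, map_sum] at h1
  rw [← h1]
  refine Finset.sum_congr rfl fun i hi => ?_
  have hi' := Finset.mem_range.1 hi
  have h2 : Q.coeff i * (a (i + (k + j)) : F) =
      (a (i + (k + j)) : ZMod p) • Q.coeff i := by
    rw [Algebra.smul_def, map_intCast, mul_comm]
  rw [hc i (by omega), h2, map_smul, smul_eq_mul, mul_comm]

/-- the coefficients of the series -/
def fs (m : ℕ) (c c' : F) : ℕ → F := fun i => c' + c * (lev m i : F)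

lemma fs_diff (m : ℕ) (c c' : F) (Q : F[X]) (n : ℕ) :
    act Q (fs m c c') (n + 2 ^ m) - act Q (fs m c c') n = c * act Q (dF F m) n := by
  rw [act_apply, act_apply, act_apply, ← Finset.sum_sub_distrib, Finset.mul_sum]
  refine Finset.sum_congr rfl fun i _ => ?_
  unfold fs dF dl
  rw [← add_assoc]
  push_cast
  ring

/-- If the bound fails then the difference sequence has a window of excess `2 ^ m`. -/
lemma window_of_lt [Fintype F] (m : ℕ) (c c' : F) (hc : c ≠ 0) (N : F[X]) (hN : N ≠ 0)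
    (h : val m c c' N < (Fintype.card F : ℝ) ^ (-(2 ^ (m + 1) : ℤ))) :
    ∃ (Q : F[X]) (k : ℕ), Q ≠ 0 ∧ ∀ j, 1 ≤ j → j ≤ Q.natDegree + 2 ^ m → act Q (dF F m) (k + j) = 0 := by
  obtain ⟨Q, hQ⟩ : (X : F[X]) ^ multiplicity (X : F[X]) N ∣ N := pow_multiplicity_dvd X N
  have hQ0 : Q ≠ 0 := by rintro rfl; exact hN (by rw [hQ, mul_zero])
  have h2 : 2 ^ (m + 1) = 2 ^ m + 2 ^ m := by rw [pow_succ]; ring
  refine ⟨Q, multiplicity (X : F[X]) N, hQ0, ?_⟩
  have hz : ∀ j, 1 ≤ j → j ≤ Q.natDegree + 2 ^ (m + 1) →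
      act Q (fs m c c') (multiplicity (X : F[X]) N + j) = 0 := by
    intro j h1 h3
    by_contra hcon
    have h4 := lower (fs m c c') (2 ^ (m + 1)) N Q hN hQ ⟨j, h1, h3, hcon⟩
    push_cast at h4
    exact absurd h (not_lt.2 h4)
  intro j h1 h3
  have hM : 0 < 2 ^ m := by positivity
  have h5 := fs_diff m c c' Q (multiplicity (X : F[X]) N + j)
  rw [hz j h1 (by omega), add_assoc, hz (j + 2 ^ m) (by omega) (by omega), sub_zero] at h5
  rcases mul_eq_zero.1 h5.symm with h6 | h6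
  · exact absurd h6 hc
  · exact h6

/-- A window of excess `2 ^ m` gives arbitrarily small values. -/
lemma small_of_window [Fintype F] (m : ℕ) (c c' : F)
    (h : ∃ (Q : F[X]) (k : ℕ), Q ≠ 0 ∧ ∀ j, 1 ≤ j → j ≤ Q.natDegree + 2 ^ m → act Q (dF F m) (k + j) = 0)
    (ε : ℝ) (hε : 0 < ε) : ∃ N : F[X], N ≠ 0 ∧ val m c c' N < ε := by
  obtain ⟨Q, k, hQ0, hQ⟩ := h
  have hq : (1 : ℝ) < Fintype.card F := by exact_mod_cast Fintype.one_lt_card
  have hq0 : (0 : ℝ) < Fintype.card F := by linarith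
  obtain ⟨t, ht⟩ := exists_pow_lt_of_lt_one hε (inv_lt_one_of_one_lt₀ hq)
  obtain ⟨Q', k', hQ', hz⟩ := pump_all m Q hQ0 k hQ t
  have hM : 0 < 2 ^ m := by positivity
  have hX : (X ^ 2 ^ m - C 1 : F[X]).Monic := monic_X_pow_sub_C 1 hM.ne'
  have hR0 : Q' * (X ^ 2 ^ m - C 1) ≠ 0 := mul_ne_zero hQ' hX.ne_zero
  have hRd : (Q' * (X ^ 2 ^ m - C 1)).natDegree = Q'.natDegree + 2 ^ m := by
    rw [natDegree_mul hQ' hX.ne_zero, natDegree_X_pow_sub_C]
  refine ⟨X ^ k' * (Q' * (X ^ 2 ^ m - C 1)), mul_ne_zero (pow_ne_zero _ X_ne_zero) hR0, ?_⟩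
  have hv : ∀ j, 1 ≤ j → j ≤ Q'.natDegree + 2 ^ m + 2 ^ t - 1 →
      act (Q' * (X ^ 2 ^ m - C 1)) (fs m c c') (k' + j) = 0 := by
    intro j h1 h3
    have h4 : act (Q' * (X ^ 2 ^ m - C 1)) (fs m c c') (k' + j) =
        act Q' (fs m c c') (k' + j + 2 ^ m) - act Q' (fs m c c') (k' + j) := by
      rw [show Q' * (X ^ 2 ^ m - C 1) = X ^ 2 ^ m * Q' + -1 * Q' by rw [C_1]; ring, act_add_left, Pi.add_apply,
        act_mul, act_Xpow, add_comm (2 ^ m)]
      have h5 : act (-1 * Q') (fs m c c') = - act Q' (fs m c c') := by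
        unfold act
        rw [map_mul, map_neg, map_one, Module.End.mul_apply]
        rfl
      rw [h5, Pi.neg_apply]
      ring
    have hT : 0 < 2 ^ t := by positivity
    rw [h4, fs_diff, hz j h1 (by omega), mul_zero]
  have hup := upper (fs m c c') k' (Q'.natDegree + 2 ^ m + 2 ^ t - 1) _ hR0 hv
  refine lt_of_le_of_lt hup (lt_of_le_of_lt ?_ ht)
  have hT : t < 2 ^ t := Nat.lt_two_pow_self
  rw [← zpow_natCast, inv_zpow', hRd]
  apply zpow_le_zpow_right₀ hq.le
  have : 1 ≤ Q'.natDegree + 2 ^ m + 2 ^ t := by omega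
  push_cast [Nat.cast_sub this]
  have h7 : (t : ℤ) < 2 ^ t := by exact_mod_cast hT
  linarith

end aux

/-- Let `F` be a finite field of order `q` and characteristic `p`, let `m ≥ 1`, `c ≠ 0`, and let
`Θ = ∑ (c' + c l_i) t ^ (-i)`, where `l` is the level-`m` paperfolding sequence.

* If a power of `p` is congruent to `2 ^ m + 1` modulo `2 ^ (m + 1)` (for instance if `2 ^ m` is the exact power of `2` dividing
  `p - 1`), then `|N| |N|_t |⟨N Θ⟩| ≥ q ^ (-2 ^ (m + 1))` for all nonzero `N`: `Θ` is a counterexample to the `t`-adic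
  Littlewood conjecture.
* Without this condition, either the same bound holds for all nonzero `N`, or the infimum is `0`.
* For `p = 17`, `m = 2` the infimum is `0`. -/
theorem result (F : Type*) [Field F] [Fintype F] (m : ℕ) (hm : 1 ≤ m) (c c' : F) (hc : c ≠ 0) :
    ((∃ j : ℕ, ringChar F ^ j % 2 ^ (m + 1) = 2 ^ m + 1) →
      ∀ N : F[X], N ≠ 0 → (Fintype.card F : ℝ) ^ (-(2 ^ (m + 1) : ℤ)) ≤ val m c c' N) ∧
    ((∀ N : F[X], N ≠ 0 → (Fintype.card F : ℝ) ^ (-(2 ^ (m + 1) : ℤ)) ≤ val m c c' N) ∨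
      ∀ ε : ℝ, 0 < ε → ∃ N : F[X], N ≠ 0 ∧ val m c c' N < ε) ∧
    (ringChar F = 17 → m = 2 → ∀ ε : ℝ, 0 < ε → ∃ N : F[X], N ≠ 0 ∧ val m c c' N < ε) := by
  refine ⟨?_, ?_, ?_⟩
  · rintro ⟨j, hj⟩ N hN
    by_contra hlt
    push Not at hlt
    obtain ⟨Q, k, hQ0, hQ⟩ := window_of_lt m c c' hc N hN hlt
    set p := ringChar F with hp
    have _ : CharP F p := ringChar.charP F
    have _ : Fact p.Prime := ⟨CharP.char_is_prime F p⟩
    have hp2 : p ≠ 2 := by
      intro h2
      rw [h2] at hj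
      rcases Nat.eq_zero_or_pos j with rfl | hj0
      · rw [pow_zero, Nat.one_mod_eq_one.2 (by
          have : 2 ≤ 2 ^ (m + 1) := by
            calc 2 = 2 ^ 1 := rfl
              _ ≤ 2 ^ (m + 1) := Nat.pow_le_pow_right (by norm_num) (by omega)
          omega)] at hj
        have : 0 < 2 ^ m := by positivity
        omega
      · obtain ⟨i, rfl⟩ : ∃ i, j = i + 1 := ⟨j - 1, by omega⟩
        obtain ⟨d, rfl⟩ : ∃ d, m = d + 1 := ⟨m - 1, by omega⟩
        have h3 : 2 ^ (i + 1) % 2 ^ (d + 1 + 1) % 2 = (2 ^ (d + 1) + 1) % 2 := by rw [hj]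
        rw [Nat.mod_mod_of_dvd _ (show 2 ∣ 2 ^ (d + 1 + 1) from ⟨2 ^ (d + 1), by rw [pow_succ]; ring⟩), pow_succ,
          pow_succ] at h3
        omega
    have h2 : (2 : ZMod p) ≠ 0 := by
      apply Ring.two_ne_zero
      rwa [ZMod.ringChar_zmod_n]
    obtain ⟨i, hi1, hi2, hi3⟩ := extend p (Pool.Agent.H96.TLC.dl m) (2 ^ m)
      (fun Q hQ k => Pool.Agent.H96.TLC.main_level p m j hm hj h2 Q.natDegree Q rfl hQ k) Q hQ0 k
    exact hi3 (hQ i hi1 hi2)
  · by_cases h : ∀ N : F[X], N ≠ 0 → (Fintype.card F : ℝ) ^ (-(2 ^ (m + 1) : ℤ)) ≤ val m c c' N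
    · exact Or.inl h
    · push Not at h
      obtain ⟨N, hN, hlt⟩ := h
      exact Or.inr (small_of_window m c c' (window_of_lt m c c' hc N hN hlt))
  · intro hp hm2
    subst hm2
    have _ : CharP F 17 := by
      rw [← hp]
      exact ringChar.charP F
    obtain ⟨Q, hQ0, hQ⟩ := Pool.Agent.H96.TLC.window17 (F := F)
    exact small_of_window 2 c c' ⟨Q, 60, hQ0, hQ⟩

end Pool.Agent.Results.MP_59ccbf_nt.LevelPaperfolding
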