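import Mathlib
import Pool.Agent.H96.TLCOdd

/-!
# The t-adic Littlewood conjecture fails over every finite field of odd order

`K_q = F_q((1/t))` is `LaurentSeries F`, whose variable stands for `1/t`.
The counterexample `Ψ` is the unique series `Ψ = ∑_{i ≥ 1} a_i t ^ (-i)` with
`(t ^ 2 - β) Ψ(t) = t + Ψ(t ^ 2)`, where `β` is a non-square of `F`.
For it the infimum in the conjecture is attained and equals `q ^ (-2)`.
-/

set_option autoImplicit false

open Polynomial

namespace Pool.Agent.Results.MP_59ccbf_nt.OddFields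

/-- The element `t` of `K_q = F((1/t))`: the variable of `LaurentSeries F` stands for `1/t`. -/
noncomputable def tK (F : Type*) [Field F] : LaurentSeries F := HahnSeries.single (-1 : ℤ) 1

/-- A polynomial `N(t)` as an element of `K_q`: its value at `t`, constants being constant
series. -/
noncomputable def toK {F : Type*} [Field F] (N : F[X]) : LaurentSeries F :=
  eval₂ (HahnSeries.C : F →+* LaurentSeries F) (tK F) N

/-- The absolute value of `K_q`: `|Θ| = q ^ d` where `d` is the degree of `Θ` in `t`
(`d` is minus the order in `1/t`), and `|0| = 0`. -/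
noncomputable def absK {F : Type*} [Field F] [Fintype F] (Θ : LaurentSeries F) : ℝ :=
  open Classical in if Θ = 0 then 0 else (Fintype.card F : ℝ) ^ (-Θ.order)

/-- The fractional part: the sum of the terms of `Θ` with negative powers of `t`, that is
positive powers of `1/t`. -/
noncomputable def fracK {F : Type*} [Field F] (Θ : LaurentSeries F) : LaurentSeries F where
  coeff n := if 0 < n then Θ.coeff n else 0
  isPWO_support' := Θ.isPWO_support.mono (by
    intro n hn
    simp only [Function.mem_support] at hn ⊢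
    intro h
    apply hn
    simp [h])

/-- `|N|_t = q ^ (-v)` where `v` is the largest integer with `t ^ v ∣ N` (for `N ≠ 0`). -/
noncomputable def absT {F : Type*} [Field F] [Fintype F] (N : F[X]) : ℝ :=
  (Fintype.card F : ℝ) ^ (-(multiplicity (X : F[X]) N : ℤ))

section aux

open Pool.Agent.H96.TLC

variable {F : Type*} [Field F]

lemma tK_pow (i : ℕ) : (tK F) ^ i = HahnSeries.single (-(i : ℤ)) 1 := by
  unfold tK
  rw [HahnSeries.single_pow]
  simp

lemma toK_eq (N : F[X]) :
    toK N = ∑ i ∈ Finset.range (N.natDegree + 1), HahnSeries.single (-(i : ℤ)) (N.coeff i) := by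
  unfold toK
  rw [eval₂_eq_sum_range]
  refine Finset.sum_congr rfl fun i _ => ?_
  rw [tK_pow, HahnSeries.C_apply, HahnSeries.single_mul_single, zero_add, mul_one]

lemma toK_coeff (N : F[X]) (m : ℤ) :
    (toK N).coeff m = if m ≤ 0 then N.coeff (-m).toNat else 0 := by
  rw [toK_eq, HahnSeries.coeff_sum]
  by_cases hm : m ≤ 0
  · rw [if_pos hm]
    by_cases hlt : (-m).toNat < N.natDegree + 1
    · rw [Finset.sum_eq_single_of_mem (-m).toNat (Finset.mem_range.2 hlt)]
      · rw [show (-(((-m).toNat : ℕ) : ℤ)) = m by omega]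
        simp
      · intro b _ hb
        rw [HahnSeries.coeff_single_of_ne]
        omega
    · rw [coeff_eq_zero_of_natDegree_lt (by omega)]
      refine Finset.sum_eq_zero fun i hi => ?_
      rw [HahnSeries.coeff_single_of_ne]
      simp at hi
      omega
  · rw [if_neg hm]
    refine Finset.sum_eq_zero fun i _ => ?_
    rw [HahnSeries.coeff_single_of_ne]
    omega

lemma toK_ne_zero {N : F[X]} (hN : N ≠ 0) : toK N ≠ 0 := by
  intro h
  have : (toK N).coeff (-(N.natDegree : ℤ)) = 0 := by rw [h]; simp
  rw [toK_coeff, if_pos (by omega)] at this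
  simp at this
  exact hN this

lemma toK_order {N : F[X]} (hN : N ≠ 0) : (toK N).order = -(N.natDegree : ℤ) := by
  apply le_antisymm
  · apply HahnSeries.order_le_of_coeff_ne_zero
    rw [toK_coeff, if_pos (by omega)]
    simpa using hN
  · have h : (toK N).coeff (toK N).order ≠ 0 := by
      intro h
      exact toK_ne_zero hN (HahnSeries.coeff_order_eq_zero.mp h)
    rw [toK_coeff] at h
    by_contra hlt
    push Not at hlt
    apply h
    split_ifs
    · exact coeff_eq_zero_of_natDegree_lt (by omega)
    · rfl

/-- The counterexample series. -/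
noncomputable def psi (β : F) : LaurentSeries F :=
  HahnSeries.ofPowerSeries ℤ F (PowerSeries.mk (seqA β))

lemma psi_coeff_nat (β : F) (n : ℕ) : (psi β).coeff (n : ℤ) = seqA β n := by
  unfold psi
  rw [HahnSeries.ofPowerSeries_apply_coeff, PowerSeries.coeff_mk]

lemma mul_coeff (N : F[X]) (β : F) (j : ℕ) :
    (toK N * psi β).coeff (j : ℤ) = act N (seqA β) j := by
  rw [toK_eq, Finset.sum_mul, HahnSeries.coeff_sum, act_apply]
  refine Finset.sum_congr rfl fun i _ => ?_
  rw [HahnSeries.coeff_single_mul]
  rw [show ((j : ℤ) - -(i : ℤ)) = ((i + j : ℕ) : ℤ) by push_cast; ring, psi_coeff_nat]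

end aux

/-- For every finite field of odd order `q` there is `Θ` in `K_q = F_q((1/t))` such that the
infimum of `|N| |N|_t |⟨N Θ⟩|` over nonzero `N` is attained and equal to `q ^ (-2)`; in
particular the `t`-adic Littlewood conjecture fails over `F_q`. -/
theorem result (F : Type*) [Field F] [Fintype F] (hF : Odd (Fintype.card F)) :
    ∃ Θ : LaurentSeries F,
      IsLeast {r : ℝ | ∃ N : F[X], N ≠ 0 ∧ r = absK (toK N) * absT N * absK (fracK (toK N * Θ))}
        ((Fintype.card F : ℝ) ^ (-2 : ℤ)) := by
  classical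
  have hchar : ringChar F ≠ 2 := by
    intro h
    have := (FiniteField.even_card_iff_char_two (F := F)).mp h
    rw [Nat.odd_iff] at hF
    omega
  obtain ⟨β, hβ⟩ := FiniteField.exists_nonsquare hchar
  have hβ' : ∀ b : F, b ^ 2 ≠ β := fun b hb => hβ ⟨b, by rw [← hb, sq]⟩
  have h2 : (2 : F) ≠ 0 := Ring.two_ne_zero hchar
  have hβ0 : β ≠ 0 := fun h => hβ' 0 (by simp [h])
  have hq : (1 : ℝ) < Fintype.card F := by exact_mod_cast Fintype.one_lt_card
  have hq0 : (0 : ℝ) < Fintype.card F := by linarith
  refine ⟨psi β, ?_, ?_⟩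
  · -- the value is attained at `N = t`
    refine ⟨X, X_ne_zero, ?_⟩
    have h1 : absK (toK (X : F[X])) = (Fintype.card F : ℝ) ^ (1 : ℤ) := by
      unfold absK
      rw [if_neg (toK_ne_zero X_ne_zero), toK_order X_ne_zero]
      simp
    have h2' : absT (X : F[X]) = (Fintype.card F : ℝ) ^ (-1 : ℤ) := by
      unfold absT
      have : multiplicity (X : F[X]) X = 1 := multiplicity_self
      rw [this]; simp
    have hc : ∀ j : ℕ, (toK (X : F[X]) * psi β).coeff (j : ℤ) =
        Pool.Agent.H96.TLC.seqA β (j + 1) := by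
      intro j
      rw [mul_coeff, Pool.Agent.H96.TLC.act_apply]
      rw [natDegree_X, Finset.sum_range_succ, Finset.sum_range_succ, Finset.sum_range_zero]
      simp [add_comm]
    have hc1 : (fracK (toK (X : F[X]) * psi β)).coeff 2 = β := by
      show (if (0 : ℤ) < 2 then (toK (X : F[X]) * psi β).coeff 2 else 0) = β
      rw [if_pos (by norm_num)]
      have := hc 2
      rw [show ((2 : ℕ) : ℤ) = 2 by norm_num] at this
      rw [this]
      have := Pool.Agent.H96.TLC.seqA_odd β 1
      simpa using this
    have hne : fracK (toK (X : F[X]) * psi β) ≠ 0 := by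
      intro h
      rw [h] at hc1
      exact hβ0 hc1.symm
    have hord : (fracK (toK (X : F[X]) * psi β)).order = 2 := by
      apply le_antisymm
      · apply HahnSeries.order_le_of_coeff_ne_zero
        rw [hc1]; exact hβ0
      · by_contra hlt
        push Not at hlt
        have hz : (fracK (toK (X : F[X]) * psi β)).coeff
            (fracK (toK (X : F[X]) * psi β)).order ≠ 0 := fun h =>
          hne (HahnSeries.coeff_order_eq_zero.mp h)
        generalize (fracK (toK (X : F[X]) * psi β)).order = m at hz hlt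
        apply hz
        show (if (0 : ℤ) < m then (toK (X : F[X]) * psi β).coeff m else 0) = 0
        split_ifs with hm
        · have hm1 : m = ((1 : ℕ) : ℤ) := by omega
          rw [hm1, hc 1]
          simp [Pool.Agent.H96.TLC.seqA]
        · rfl
    rw [h1, h2']
    unfold absK
    rw [if_neg hne, hord, ← zpow_add₀ hq0.ne', ← zpow_add₀ hq0.ne']
    norm_num
  · -- lower bound
    rintro r ⟨N, hN, rfl⟩
    set v := multiplicity (X : F[X]) N with hv
    obtain ⟨Q, hQ⟩ : (X : F[X]) ^ v ∣ N := pow_multiplicity_dvd X N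
    have hQ0 : Q ≠ 0 := by rintro rfl; exact hN (by rw [hQ, mul_zero])
    have hdeg : N.natDegree = v + Q.natDegree := by
      rw [hQ, natDegree_mul (pow_ne_zero _ X_ne_zero) hQ0, natDegree_X_pow]
    obtain ⟨j, hj1, hj2, hj3⟩ := Pool.Agent.H96.TLC.main β hβ' h2 Q.natDegree Q rfl hQ0 v
    have hshift : Pool.Agent.H96.TLC.act N (Pool.Agent.H96.TLC.seqA β) j ≠ 0 := by
      rw [hQ, Pool.Agent.H96.TLC.act_mul]
      have : ∀ (b : ℕ → F), Pool.Agent.H96.TLC.act (X ^ v : F[X]) b j = b (v + j) := by
        intro b
        unfold Pool.Agent.H96.TLC.act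
        rw [map_pow, aeval_X, Pool.Agent.H96.TLC.shiftOp_pow_apply]
      rw [this]; exact hj3
    have hcj : (fracK (toK N * psi β)).coeff (j : ℤ) ≠ 0 := by
      show (if (0 : ℤ) < (j : ℤ) then (toK N * psi β).coeff (j : ℤ) else 0) ≠ 0
      rw [if_pos (by omega), mul_coeff]
      exact hshift
    have hne : fracK (toK N * psi β) ≠ 0 := by
      intro h; rw [h] at hcj; exact hcj rfl
    have hord : (fracK (toK N * psi β)).order ≤ j := HahnSeries.order_le_of_coeff_ne_zero hcj
    unfold absK absT
    rw [if_neg (toK_ne_zero hN), if_neg hne, toK_order hN, ← zpow_add₀ hq0.ne',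
      ← zpow_add₀ hq0.ne']
    apply zpow_le_zpow_right₀ hq.le
    rw [← hv]
    omega

end Pool.Agent.Results.MP_59ccbf_nt.OddFields
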