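import Mathlib
import Pool.Agent.H96.TLCOdd

/-!
# The paperfolding series is a counterexample to the t-adic Littlewood conjecture over every
finite field of characteristic 3 modulo 4

`K_q = F_q((1/t))` is `LaurentSeries F`, whose variable stands for `1/t`.
The paperfolding series is `∑_{i ≥ 1} f_i t ^ (-i)` with `f_(2i) = f_i`, `f_(4i+1) = 1`,
`f_(4i+3) = -1`. For it the infimum in the conjecture is attained and equals `q ^ (-4)`.
-/

set_option autoImplicit false

open Polynomial

namespace Pool.Agent.Results.MP_59ccbf_nt.Paperfolding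

/-- The element `t` of `K_q = F((1/t))`: the variable of `LaurentSeries F` stands for `1/t`. -/
noncomputable def tK (F : Type*) [Field F] : LaurentSeries F := HahnSeries.single (-1 : ℤ) 1

/-- A polynomial `N(t)` as an element of `K_q`: its value at `t`, constants being constant
series. -/
noncomputable def toK {F : Type*} [Field F] (N : F[X]) : LaurentSeries F :=
  eval₂ (HahnSeries.C : F →+* LaurentSeries F) (tK F) N

/-- The absolute value of `K_q`: `|Θ| = q ^ d` where `d` is the degree of `Θ` in `t`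
(`d` is minus the order in `1/t`), and `|0| = 0`. -/
noncomputable def absK {F : Type*} [Field F] [Fintype F] (Θ : LaurentSeries F) : ℝ :=
  open Classical in if Θ = 0 then 0 else (Fintype.card F : ℝ) ^ (-Θ.order)

/-- The fractional part: the sum of the terms of `Θ` with negative powers of `t`, that is
positive powers of `1/t`. -/
noncomputable def fracK {F : Type*} [Field F] (Θ : LaurentSeries F) : LaurentSeries F where
  coeff n := if 0 < n then Θ.coeff n else 0
  isPWO_support' := Θ.isPWO_support.mono (by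
    intro n hn
    simp only [Function.mem_support] at hn ⊢
    intro h
    apply hn
    simp [h])

/-- `|N|_t = q ^ (-v)` where `v` is the largest integer with `t ^ v ∣ N` (for `N ≠ 0`). -/
noncomputable def absT {F : Type*} [Field F] [Fintype F] (N : F[X]) : ℝ :=
  (Fintype.card F : ℝ) ^ (-(multiplicity (X : F[X]) N : ℤ))

/-- The Laurent series `∑_{i ≥ 0} a_i t ^ (-i)`. -/
noncomputable def ser {F : Type*} [Field F] (a : ℕ → F) : LaurentSeries F :=
  HahnSeries.ofPowerSeries ℤ F (PowerSeries.mk a)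

/-- The regular paperfolding sequence `f_i` with values `1` and `-1` (and `f_0 = 0`): `f_(2i) = f_i`,
`f_(4i+1) = 1`, `f_(4i+3) = -1`. -/
def paperfold (n : ℕ) : ℤ :=
  if n = 0 then 0 else if n % 2 = 0 then paperfold (n / 2) else if n % 4 = 1 then 1 else -1
decreasing_by omega

section aux

open Pool.Agent.H96.TLC

variable {F : Type*} [Field F]

lemma tK_pow (i : ℕ) : (tK F) ^ i = HahnSeries.single (-(i : ℤ)) 1 := by
  unfold tK
  rw [HahnSeries.single_pow]
  simp

lemma toK_eq (N : F[X]) :
    toK N = ∑ i ∈ Finset.range (N.natDegree + 1), HahnSeries.single (-(i : ℤ)) (N.coeff i) := by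
  unfold toK
  rw [eval₂_eq_sum_range]
  refine Finset.sum_congr rfl fun i _ => ?_
  rw [tK_pow, HahnSeries.C_apply, HahnSeries.single_mul_single, zero_add, mul_one]

lemma toK_coeff (N : F[X]) (m : ℤ) :
    (toK N).coeff m = if m ≤ 0 then N.coeff (-m).toNat else 0 := by
  rw [toK_eq, HahnSeries.coeff_sum]
  by_cases hm : m ≤ 0
  · rw [if_pos hm]
    by_cases hlt : (-m).toNat < N.natDegree + 1
    · rw [Finset.sum_eq_single_of_mem (-m).toNat (Finset.mem_range.2 hlt)]
      · rw [show (-(((-m).toNat : ℕ) : ℤ)) = m by omega]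
        simp
      · intro b _ hb
        rw [HahnSeries.coeff_single_of_ne]
        omega
    · rw [coeff_eq_zero_of_natDegree_lt (by omega)]
      refine Finset.sum_eq_zero fun i hi => ?_
      rw [HahnSeries.coeff_single_of_ne]
      simp at hi
      omega
  · rw [if_neg hm]
    refine Finset.sum_eq_zero fun i _ => ?_
    rw [HahnSeries.coeff_single_of_ne]
    omega

lemma toK_ne_zero {N : F[X]} (hN : N ≠ 0) : toK N ≠ 0 := by
  intro h
  have : (toK N).coeff (-(N.natDegree : ℤ)) = 0 := by rw [h]; simp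
  rw [toK_coeff, if_pos (by omega)] at this
  simp at this
  exact hN this

lemma toK_order {N : F[X]} (hN : N ≠ 0) : (toK N).order = -(N.natDegree : ℤ) := by
  apply le_antisymm
  · apply HahnSeries.order_le_of_coeff_ne_zero
    rw [toK_coeff, if_pos (by omega)]
    simpa using hN
  · have h : (toK N).coeff (toK N).order ≠ 0 := by
      intro h
      exact toK_ne_zero hN (HahnSeries.coeff_order_eq_zero.mp h)
    rw [toK_coeff] at h
    by_contra hlt
    push Not at hlt
    apply h
    split_ifs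
    · exact coeff_eq_zero_of_natDegree_lt (by omega)
    · rfl

lemma ser_coeff_nat (a : ℕ → F) (n : ℕ) : (ser a).coeff (n : ℤ) = a n := by
  unfold ser
  rw [HahnSeries.ofPowerSeries_apply_coeff, PowerSeries.coeff_mk]

lemma mul_coeff (N : F[X]) (a : ℕ → F) (j : ℕ) :
    (toK N * ser a).coeff (j : ℤ) = act N a j := by
  rw [toK_eq, Finset.sum_mul, HahnSeries.coeff_sum, act_apply]
  refine Finset.sum_congr rfl fun i _ => ?_
  rw [HahnSeries.coeff_single_mul]
  rw [show ((j : ℤ) - -(i : ℤ)) = ((i + j : ℕ) : ℤ) by push_cast; ring, ser_coeff_nat]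

lemma fracK_coeff_nat (N : F[X]) (a : ℕ → F) {j : ℕ} (hj : 1 ≤ j) :
    (fracK (toK N * ser a)).coeff (j : ℤ) = act N a j := by
  show (if (0 : ℤ) < (j : ℤ) then (toK N * ser a).coeff (j : ℤ) else 0) = _
  rw [if_pos (by omega), mul_coeff]

/-- Lower bound for all `N`. -/
lemma lower [Fintype F] (a : ℕ → F) (g : ℕ)
    (h : ∀ (Q : F[X]), Q ≠ 0 → ∀ k : ℕ, ∃ j, 1 ≤ j ∧ j ≤ Q.natDegree + g ∧ act Q a (k + j) ≠ 0)
    (N : F[X]) (hN : N ≠ 0) :
    (Fintype.card F : ℝ) ^ (-(g : ℤ)) ≤ absK (toK N) * absT N * absK (fracK (toK N * ser a)) := by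
  have hq : (1 : ℝ) < Fintype.card F := by exact_mod_cast Fintype.one_lt_card
  have hq0 : (0 : ℝ) < Fintype.card F := by linarith
  set v := multiplicity (X : F[X]) N with hv
  obtain ⟨Q, hQ⟩ : (X : F[X]) ^ v ∣ N := pow_multiplicity_dvd X N
  have hQ0 : Q ≠ 0 := by rintro rfl; exact hN (by rw [hQ, mul_zero])
  have hdeg : N.natDegree = v + Q.natDegree := by
    rw [hQ, natDegree_mul (pow_ne_zero _ X_ne_zero) hQ0, natDegree_X_pow]
  obtain ⟨j, hj1, hj2, hj3⟩ := h Q hQ0 v
  have hshift : act N a j ≠ 0 := by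
    rw [hQ, act_mul]
    have : ∀ (b : ℕ → F), act (X ^ v : F[X]) b j = b (v + j) := by
      intro b
      unfold act
      rw [map_pow, aeval_X, shiftOp_pow_apply]
    rw [this]; exact hj3
  have hcj : (fracK (toK N * ser a)).coeff (j : ℤ) ≠ 0 := by
    rw [fracK_coeff_nat N a hj1]
    exact hshift
  have hne : fracK (toK N * ser a) ≠ 0 := by
    intro h; rw [h] at hcj; exact hcj rfl
  have hord : (fracK (toK N * ser a)).order ≤ j := HahnSeries.order_le_of_coeff_ne_zero hcj
  unfold absK absT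
  rw [if_neg (toK_ne_zero hN), if_neg hne, toK_order hN, ← zpow_add₀ hq0.ne',
    ← zpow_add₀ hq0.ne']
  apply zpow_le_zpow_right₀ hq.le
  rw [← hv]
  omega

/-- The value at `N = t ^ v Q`, `t ∤ Q`, if the coefficients of `⟨N Θ⟩` vanish before the `j`-th. -/
lemma value [Fintype F] (a : ℕ → F) (N : F[X]) (hN : N ≠ 0) (v d j : ℕ)
    (hv : multiplicity (X : F[X]) N = v) (hd : N.natDegree = v + d) (hj : 1 ≤ j)
    (h0 : ∀ i, 1 ≤ i → i < j → act N a i = 0) (h1 : act N a j ≠ 0) :
    absK (toK N) * absT N * absK (fracK (toK N * ser a)) =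
      (Fintype.card F : ℝ) ^ ((d : ℤ) - j) := by
  have hq : (1 : ℝ) < Fintype.card F := by exact_mod_cast Fintype.one_lt_card
  have hq0 : (0 : ℝ) < Fintype.card F := by linarith
  have hcj : (fracK (toK N * ser a)).coeff (j : ℤ) ≠ 0 := by
    rw [fracK_coeff_nat N a hj]
    exact h1
  have hne : fracK (toK N * ser a) ≠ 0 := by
    intro h; rw [h] at hcj; exact hcj rfl
  have hord : (fracK (toK N * ser a)).order = j := by
    apply le_antisymm (HahnSeries.order_le_of_coeff_ne_zero hcj)
    by_contra hlt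
    push Not at hlt
    have hz : (fracK (toK N * ser a)).coeff (fracK (toK N * ser a)).order ≠ 0 := fun h =>
      hne (HahnSeries.coeff_order_eq_zero.mp h)
    generalize (fracK (toK N * ser a)).order = m at hz hlt
    apply hz
    by_cases hm : 0 < m
    · obtain ⟨i, rfl⟩ : ∃ i : ℕ, m = i := ⟨m.toNat, by omega⟩
      rw [fracK_coeff_nat N a (by omega)]
      exact h0 i (by omega) (by omega)
    · show (if (0 : ℤ) < m then (toK N * ser a).coeff m else 0) = 0
      rw [if_neg hm]
  unfold absK absT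
  rw [if_neg (toK_ne_zero hN), if_neg hne, hord, toK_order hN, ← zpow_add₀ hq0.ne',
    ← zpow_add₀ hq0.ne', hv, hd]
  congr 1
  push_cast
  ring

/-- Windows of an integer sequence do not grow when the prime field is extended. -/
lemma extend [Fintype F] (p : ℕ) [Fact p.Prime] [CharP F p] (a : ℕ → ℤ) (g : ℕ)
    (h : ∀ (Q : (ZMod p)[X]), Q ≠ 0 → ∀ k : ℕ,
      ∃ j, 1 ≤ j ∧ j ≤ Q.natDegree + g ∧ act Q (fun i => (a i : ZMod p)) (k + j) ≠ 0)
    (Q : F[X]) (hQ : Q ≠ 0) (k : ℕ) :
    ∃ j, 1 ≤ j ∧ j ≤ Q.natDegree + g ∧ act Q (fun i => (a i : F)) (k + j) ≠ 0 := by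
  classical
  let _ : Algebra (ZMod p) F := ZMod.algebra F p
  obtain ⟨φ, hφ⟩ : ∃ φ : Module.Dual (ZMod p) F, φ Q.leadingCoeff ≠ 0 := by
    by_contra hcon
    push Not at hcon
    exact hQ (leadingCoeff_eq_zero.1 ((Module.forall_dual_apply_eq_zero_iff (ZMod p) _).1 hcon))
  set R : (ZMod p)[X] := ∑ i ∈ Finset.range (Q.natDegree + 1), C (φ (Q.coeff i)) * X ^ i with hR
  have hc : ∀ n, n ≤ Q.natDegree → R.coeff n = φ (Q.coeff n) := by
    intro n hn
    rw [hR, finsetSum_coeff, Finset.sum_eq_single_of_mem n (Finset.mem_range.2 (by omega))]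
    · simp
    · intro i _ hi
      rw [coeff_C_mul, coeff_X_pow, if_neg (Ne.symm hi), mul_zero]
  have hR0 : R ≠ 0 := by
    intro h0
    apply hφ
    have := hc Q.natDegree le_rfl
    rw [h0, coeff_zero] at this
    exact this.symm
  have hle : R.natDegree ≤ Q.natDegree := by
    refine natDegree_sum_le_of_forall_le _ _ fun i hi => ?_
    refine (natDegree_C_mul_X_pow_le _ _).trans ?_
    have := Finset.mem_range.1 hi
    omega
  obtain ⟨j, hj1, hj2, hj3⟩ := h R hR0 k
  refine ⟨j, hj1, by omega, fun h0 => hj3 ?_⟩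
  rw [act_apply' R _ _ (Q.natDegree + 1) (by omega)]
  rw [act_apply] at h0
  have h1 := congrArg φ h0
  rw [map_zero, map_sum] at h1
  rw [← h1]
  refine Finset.sum_congr rfl fun i hi => ?_
  have hi' := Finset.mem_range.1 hi
  have h2 : Q.coeff i * (a (i + (k + j)) : F) =
      (a (i + (k + j)) : ZMod p) • Q.coeff i := by
    rw [Algebra.smul_def, map_intCast, mul_comm]
  rw [hc i (by omega), h2, map_smul, smul_eq_mul, mul_comm]

/-- `2 a_j = f_j - f_(j+2)` for the counterexample with `β = -1` and the paperfolding sequence. -/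
lemma two_seqA (j : ℕ) (hj : 1 ≤ j) :
    2 * seqA (-1 : F) j = (paperfold j : F) - (paperfold (j + 2) : F) := by
  have pe : ∀ n : ℕ, 0 < n → paperfold (2 * n) = paperfold n := by
    intro n hn
    conv_lhs => rw [paperfold]
    rw [if_neg (by omega), if_pos (by omega)]
    congr 1
    omega
  have po : ∀ n : ℕ, n % 4 = 1 → paperfold n = 1 := by
    intro n hn
    rw [paperfold, if_neg (by omega), if_neg (by omega), if_pos hn]
  have pm : ∀ n : ℕ, n % 4 = 3 → paperfold n = -1 := by
    intro n hn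
    rw [paperfold, if_neg (by omega), if_neg (by omega), if_neg (by omega)]
  induction j using Nat.strong_induction_on with
  | _ j ih =>
  obtain rfl | rfl | hj3 : j = 1 ∨ j = 2 ∨ 3 ≤ j := by omega
  · rw [po 1 (by norm_num), pm 3 (by norm_num), seqA]
    norm_num
  · have h1 : paperfold 2 = 1 := by
      rw [show 2 = 2 * 1 by norm_num, pe 1 (by norm_num), po 1 (by norm_num)]
    have h2 : paperfold (2 + 2) = 1 := by
      rw [show 2 + 2 = 2 * 2 by norm_num, pe 2 (by norm_num), h1]
    rw [h1, h2, seqA]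
    simp [seqA]
  · obtain ⟨n, rfl⟩ : ∃ n, j = n + 2 := ⟨j - 2, by omega⟩
    have hn := ih n (by omega) (by omega)
    rw [seqA]
    rcases Nat.even_or_odd' n with ⟨c, rfl | rfl⟩
    · have hc : 1 ≤ c := by omega
      have h1 := ih c (by omega) hc
      have h2 : (2 * c) / 2 = c := by omega
      rw [if_pos (by simp), h2, mul_add, h1]
      have h3 : 2 * (-1 * seqA (-1 : F) (2 * c)) = -(2 * seqA (-1 : F) (2 * c)) := by ring
      rw [h3, hn]
      have h4 : paperfold (2 * c + 2) = paperfold (c + 1) := by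
        rw [show 2 * c + 2 = 2 * (c + 1) by ring, pe _ (by omega)]
      have h5 : paperfold (2 * c + 2 + 2) = paperfold (c + 2) := by
        rw [show 2 * c + 2 + 2 = 2 * (c + 2) by ring, pe _ (by omega)]
      rw [h4, h5, pe c (by omega)]
      ring
    · rw [if_neg (by simp), add_zero]
      have h3 : 2 * (-1 * seqA (-1 : F) (2 * c + 1)) = -(2 * seqA (-1 : F) (2 * c + 1)) := by ring
      rw [h3, hn]
      rcases Nat.even_or_odd' c with ⟨b, rfl | rfl⟩
      · rw [po (2 * (2 * b) + 1) (by omega), pm (2 * (2 * b) + 1 + 2) (by omega),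
          po (2 * (2 * b) + 1 + 2 + 2) (by omega)]
        push_cast
        ring
      · rw [pm (2 * (2 * b + 1) + 1) (by omega), po (2 * (2 * b + 1) + 1 + 2) (by omega),
          pm (2 * (2 * b + 1) + 1 + 2 + 2) (by omega)]
        push_cast
        ring

/-- Windows of the paperfolding sequence over `F_p`, `p = 3 (mod 4)`. -/
lemma window (p : ℕ) [Fact p.Prime] (hp : p % 4 = 3) (Q : (ZMod p)[X]) (hQ : Q ≠ 0) (k : ℕ) :
    ∃ j, 1 ≤ j ∧ j ≤ Q.natDegree + 4 ∧ act Q (fun i => (paperfold i : ZMod p)) (k + j) ≠ 0 := by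
  have h2 : (2 : ZMod p) ≠ 0 := by
    apply Ring.two_ne_zero
    rw [ZMod.ringChar_zmod_n]
    omega
  have hβ' : ∀ b : ZMod p, b ^ 2 ≠ -1 := by
    intro b hb
    have h3 : IsSquare (-1 : ZMod p) := ⟨b, by rw [← hb, sq]⟩
    rw [FiniteField.isSquare_neg_one_iff, ZMod.card] at h3
    exact h3 hp
  obtain ⟨j, hj1, hj2, hj3⟩ := main (-1) hβ' h2 Q.natDegree Q rfl hQ k
  have h5 : 2 * act Q (seqA (-1 : ZMod p)) (k + j) =
      act Q (fun i => (paperfold i : ZMod p)) (k + j) -
      act Q (fun i => (paperfold i : ZMod p)) (k + (j + 2)) := by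
    rw [act_apply, act_apply, act_apply, Finset.mul_sum, ← Finset.sum_sub_distrib]
    refine Finset.sum_congr rfl fun i _ => ?_
    have h6 := two_seqA (F := ZMod p) (i + (k + j)) (by omega)
    rw [show i + (k + (j + 2)) = i + (k + j) + 2 by ring]
    calc 2 * (Q.coeff i * seqA (-1 : ZMod p) (i + (k + j)))
        = Q.coeff i * (2 * seqA (-1 : ZMod p) (i + (k + j))) := by ring
      _ = _ := by rw [h6]; ring
  by_cases h7 : act Q (fun i => (paperfold i : ZMod p)) (k + j) = 0
  · refine ⟨j + 2, by omega, by omega, fun h8 => ?_⟩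
    rw [h7, h8, sub_zero] at h5
    rcases mul_eq_zero.1 h5 with h9 | h9
    · exact h2 h9
    · exact hj3 h9
  · exact ⟨j, hj1, by omega, h7⟩

end aux

/-- Over a finite field of order `q` and characteristic `3` modulo `4`, for the paperfolding series
`Θ` the infimum of `|N| |N|_t |⟨N Θ⟩|` over nonzero `N` is attained and equal to `q ^ (-4)`; in
particular the paperfolding series is a counterexample to the `t`-adic Littlewood conjecture. -/
theorem result (F : Type*) [Field F] [Fintype F] (hF : ringChar F % 4 = 3) :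
    IsLeast {r : ℝ | ∃ N : F[X], N ≠ 0 ∧
        r = absK (toK N) * absT N * absK (fracK (toK N * ser fun i => (paperfold i : F)))}
      ((Fintype.card F : ℝ) ^ (-4 : ℤ)) := by
  classical
  have hchar : ringChar F ≠ 2 := by omega
  have h2 : (2 : F) ≠ 0 := Ring.two_ne_zero hchar
  refine ⟨?_, ?_⟩
  · -- the value is attained at `N = t² (t² + 1)`
    have hN0 : (X ^ 2 * (X ^ 2 + 1) : F[X]) ≠ 0 := by
      apply mul_ne_zero (pow_ne_zero _ X_ne_zero)
      exact (Polynomial.monic_X_pow_add_C (1 : F) (by norm_num : 2 ≠ 0)).ne_zero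
    have hdeg : (X ^ 2 * (X ^ 2 + 1) : F[X]).natDegree = 2 + 2 := by
      compute_degree!
    have hpf : ∀ n : ℕ, paperfold n =
        if n = 0 then 0 else if n % 2 = 0 then paperfold (n / 2) else if n % 4 = 1 then 1 else -1 :=
      fun n => by rw [paperfold]
    have hc : ∀ j : ℕ, Pool.Agent.H96.TLC.act (X ^ 2 * (X ^ 2 + 1) : F[X])
        (fun i => (paperfold i : F)) j = (paperfold (j + 4) : F) + (paperfold (j + 2) : F) := by
      intro j
      rw [show (X ^ 2 * (X ^ 2 + 1) : F[X]) = X ^ 4 + X ^ 2 by ring,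
        Pool.Agent.H96.TLC.act_add_left, Pi.add_apply]
      unfold Pool.Agent.H96.TLC.act
      rw [map_pow, map_pow, aeval_X, Pool.Agent.H96.TLC.shiftOp_pow_apply,
        Pool.Agent.H96.TLC.shiftOp_pow_apply, add_comm 4 j, add_comm 2 j]
    have p1 : paperfold 1 = 1 := by rw [hpf]; norm_num
    have p2 : paperfold 2 = 1 := by rw [hpf]; norm_num [p1]
    have p3 : paperfold 3 = -1 := by rw [hpf]; norm_num
    have p4 : paperfold 4 = 1 := by rw [hpf]; norm_num [p2]
    have p5 : paperfold 5 = 1 := by rw [hpf]; norm_num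
    have p6 : paperfold 6 = -1 := by rw [hpf]; norm_num [p3]
    have p7 : paperfold 7 = -1 := by rw [hpf]; norm_num
    have p8 : paperfold 8 = 1 := by rw [hpf]; norm_num [p4]
    have p9 : paperfold 9 = 1 := by rw [hpf]; norm_num
    have p10 : paperfold 10 = 1 := by rw [hpf]; norm_num [p5]
    have e0 : multiplicity (X : F[X]) (X ^ 2 * (X ^ 2 + 1)) = 2 := by
      apply multiplicity_eq_of_dvd_of_not_dvd (Dvd.intro _ rfl)
      rw [pow_succ, mul_dvd_mul_iff_left (pow_ne_zero _ X_ne_zero), X_dvd_iff]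
      simp
    have e1 : ∀ i, 1 ≤ i → i < 6 → Pool.Agent.H96.TLC.act (X ^ 2 * (X ^ 2 + 1) : F[X])
        (fun i => (paperfold i : F)) i = 0 := by
      intro i h1 h3
      rw [hc]
      interval_cases i
      · norm_num [p3, p5]
      · norm_num [p4, p6]
      · norm_num [p5, p7]
      · norm_num [p6, p8]
      · norm_num [p7, p9]
    have e2 : Pool.Agent.H96.TLC.act (X ^ 2 * (X ^ 2 + 1) : F[X])
        (fun i => (paperfold i : F)) 6 ≠ 0 := by
      rw [hc, p10, p8]
      push_cast
      rw [one_add_one_eq_two]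
      exact h2
    refine ⟨X ^ 2 * (X ^ 2 + 1), hN0, ?_⟩
    rw [value _ _ hN0 2 2 6 e0 hdeg (by norm_num) e1 e2]
    norm_num
  · rintro r ⟨N, hN, rfl⟩
    set p := ringChar F with hp
    have _ : CharP F p := ringChar.charP F
    have _ : Fact p.Prime := ⟨CharP.char_is_prime F p⟩
    exact lower _ 4 (extend p paperfold 4 (window p hF)) N hN

end Pool.Agent.Results.MP_59ccbf_nt.Paperfolding
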